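import Pool.Agent.Y688.HT.Plat

/-!
# Heat trace of weighted conformal Laplacians on `S³`: the values `C(W)` reach at least `√π / e`

For the constant weight `C(1) ≤ 13/20`.  For every `c < √π / e = 0.65204…` there is a weight `W` on
`S³` with `C(W) > c`; in particular `sup_W C(W) ≥ √π / e > 13/20 ≥ C(1)`, and some weight has
`C(W) > 1.003 C(1)`.

Proof.  The bound for `C(1)` and the trial functions are those of helper974.  The weights are
`W = a / ((1 + d)² - x₃²)`, for which `S³` minus two caps becomes a long cylinder; helper974 uses one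
value of `d`, of size `e^(-20000)`, we let `d` tend to `0` and compute the limit of the lower bound.
-/

set_option autoImplicit false

open Pool.Agent.Helper974.Heat

namespace Pool.Agent.Results.MP_4a15bf_mp.LimitValue

/-- `supTrace W` is `C(W)`, the supremum over `t > 0` of `t^(n/2) Tr exp(-t Y_W)`.
(1) For the constant weight on `S³`, `C(1) ≤ 13/20 < √π / e`.
(2) For every real `c < √π / e` there is a weight `W` on `S³` with `C(W) > c`.
(3) There is a weight `W` on `S³` with `C(W) > 1.003 C(1)`. -/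
theorem result :
    (supTrace (fun _ : EE 3 => (1 : ℝ)) ≤ ENNReal.ofReal (13 / 20) ∧
      (13 / 20 : ℝ) < √Real.pi * Real.exp (-1)) ∧
    (∀ c : ℝ, c < √Real.pi * Real.exp (-1) →
      ∃ W : EE 3 → ℝ, IsWeight W ∧ ENNReal.ofReal c < supTrace W) ∧
    (∃ W : EE 3 → ℝ, IsWeight W ∧
      ENNReal.ofReal 1.003 * supTrace (fun _ : EE 3 => (1 : ℝ)) < supTrace W) := by
  refine ⟨⟨supTrace_one_le, Y688.HT.gap⟩, fun c hc => Y688.HT.exists_weight hc, ?_⟩
  obtain ⟨W, hW, h⟩ := Y688.HT.exists_weight Y688.HT.gap'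
  refine ⟨W, hW, lt_of_le_of_lt ?_ h⟩
  calc ENNReal.ofReal 1.003 * supTrace (fun _ : EE 3 => (1 : ℝ))
      ≤ ENNReal.ofReal 1.003 * ENNReal.ofReal (13 / 20) := by gcongr; exact supTrace_one_le
    _ = ENNReal.ofReal (1.003 * (13 / 20)) := (ENNReal.ofReal_mul (by norm_num)).symm

end Pool.Agent.Results.MP_4a15bf_mp.LimitValue
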